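import Pool.Agent.N794.CG.Pairs

/-!
# Kinds of random integers in thin sets

A random nonnegative integer is described by a `Law`. A `Kind` is a kind of random integers, with its fixed parameters; for
a kind `K`, `K.Has Z P` says that `P` is a random integer of this kind, of size `Z`. There are six kinds.

* `automatic b s A`: the members `v < N` of the automatic set of the integers whose digits in base `b` are accepted by the
  automaton `A`, all with the same probability; `Z = N`.
* `exchangeable b L η T`: random words of `k` digits in base `b` in which blocks of `L` digits can be exchanged; `Z = b ^ k`.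
* `mirror b η`: random words of `2 m` or `2 m + 1` digits in base `b` with independent pairs of mirror digits (for instance,
  palindromes, and words with the `i`-th digit in an arbitrary set `D i` of at least two digits); `Z` is `b ^ (2 m)` or
  `b ^ (2 m + 1)`.
* `rearranged b η`: the rearrangements of `k` given digits in base `b`; `Z = b ^ k`.
* `residues`: families of residues modulo `q` with small Fourier coefficients, for instance the elements of a subgroup of the
  multiplicative group modulo a prime number `q`, read as integers between `0` and `q`; `Z ≤ q`.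
* `rounded e f`: the integral parts of `f 1, ..., f M`, where `f` is a smoothly varying function of non-integral order `e`,
  for instance `f t = t ^ e`; `Z = f M`.
-/

set_option autoImplicit false

namespace Pool.Agent.J4.H11.MT

open Finset Filter

/-- A random integer `v i ≥ 0`; the index `i` is in the finite set `Ω` and has the probability `w i`. -/
structure Law where
  /-- the type of the indices -/
  ι : Type
  /-- the indices -/
  Ω : Finset ι
  /-- the probabilities -/
  w : ι → ℝ
  /-- the values -/
  v : ι → ℕ

/-- The probability, for the distribution `μ` on the words of `k` digits (the integers `v < b ^ k`), that the word begins with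
the `i` digits of `u < b ^ i`. -/
noncomputable def begins (b k : ℕ) (μ : ℕ → ℝ) (i u : ℕ) : ℝ := ∑ w ∈ range (b ^ (k - i)), μ (u * b ^ (k - i) + w)

/-- `p` is a probability on the words of `k` digits in base `b`, read as integers `v < b ^ k`. There is another probability
`μ` with `p ≤ k ^ T μ` such that after every beginning `u` two different blocks `a`, `a'` of `L` digits can be exchanged:
`p (u a w) = r p (u a' w)` for all endings `w`, with a factor `r` between `η` and `1 / η` which does not depend on `w`; and
given the beginning `u`, each of the two blocks comes next with a probability of at least `η` in the distribution `μ`.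
(For `T = 0` one has `μ = p`. For the uniform distribution on a set of words `r` is `1`.) -/
structure Exchangeable (b L : ℕ) (η : ℝ) (T k : ℕ) (p : ℕ → ℝ) : Prop where
  nonneg : ∀ v, 0 ≤ p v
  sum : ∑ v ∈ range (b ^ k), p v = 1
  dominated : ∃ μ : ℕ → ℝ, (∀ v, 0 ≤ μ v) ∧ ∑ v ∈ range (b ^ k), μ v = 1 ∧ (∀ v < b ^ k, p v ≤ (k : ℝ) ^ T * μ v) ∧
    ∀ i u : ℕ, i + L ≤ k → u < b ^ i → ∃ (a a' : ℕ) (r : ℝ), a < a' ∧ a' < b ^ L ∧ η ≤ r ∧ η * r ≤ 1 ∧
      (∀ w < b ^ (k - (i + L)), p ((b ^ L * u + a) * b ^ (k - (i + L)) + w) = r * p ((b ^ L * u + a') * b ^ (k - (i + L)) + w)) ∧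
      η * begins b k μ i u ≤ begins b k μ (i + L) (b ^ L * u + a) ∧
      η * begins b k μ i u ≤ begins b k μ (i + L) (b ^ L * u + a')

/-- The distributions `w i`, `i < m`, of the pairs of mirror digits; for `i ≥ 1` two independent copies of the pair differ in both
digits with a probability of at least `η`. -/
structure MirrorPairs (b m : ℕ) (η : ℝ) (w : ℕ → ℕ × ℕ → ℝ) : Prop where
  nonneg : ∀ i < m, ∀ a, 0 ≤ w i a
  sum : ∀ i < m, ∑ a ∈ range b ×ˢ range b, w i a = 1
  differ : ∀ i < m, 1 ≤ i → η ≤ ∑ a ∈ range b ×ˢ range b, ∑ a' ∈ range b ×ˢ range b,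
    if a.1 ≠ a'.1 ∧ a.2 ≠ a'.2 then w i a * w i a' else 0

/-- The Fourier coefficients of the residues `y i`, `i ∈ u`, modulo `q` at the nonzero frequencies are at most `η` times the
number of the residues: `|∑ i ∈ u, e(h y_i / q)| ≤ η |u|` for all `h ≠ 0` modulo `q`. -/
def SmallFourier {ι : Type} (q : ℕ) [NeZero q] (η : ℝ) (u : Finset ι) (y : ι → ZMod q) : Prop :=
  ∀ h : ZMod q, h ≠ 0 → ‖∑ i ∈ u, (ZMod.stdAddChar (h * y i) : ℂ)‖ ≤ η * u.card

/-- `f` is smoothly varying of order `e`: it is infinitely differentiable and positive for large arguments, and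
`t ^ m f⁽ᵐ⁾(t) / f(t) → e (e - 1) ... (e - m + 1)` for every `m`. -/
def SmoothlyVarying (e : ℝ) (f : ℝ → ℝ) : Prop :=
  (∃ t₀ : ℝ, ∀ t > t₀, ContDiffAt ℝ ((⊤ : ℕ∞) : WithTop ℕ∞) f t ∧ 0 < f t) ∧
  ∀ m : ℕ, Tendsto (fun t => t ^ m * iteratedDeriv m f t / f t) atTop (nhds (∏ i ∈ range m, (e - i)))

open Classical in
/-- The integers `v < N` whose digits in base `b` (the lowest one first) are accepted by the automaton `A`. -/
noncomputable def accepted {σ : Type} (b : ℕ) (A : DFA ℕ σ) (N : ℕ) : Finset ℕ :=
  (range N).filter (fun v => Nat.digits b v ∈ A.accepts)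

/-- A kind of random integers, with its fixed parameters. -/
inductive Kind where
  /-- automatic sets in base `b`, with an automaton with `s` states -/
  | automatic (b s : ℕ) (A : DFA ℕ (Fin s))
  /-- words with exchangeable blocks of `L` digits in base `b` -/
  | exchangeable (b L : ℕ) (η : ℝ) (T : ℕ)
  /-- words with independent pairs of mirror digits in base `b` -/
  | mirror (b : ℕ) (η : ℝ)
  /-- rearrangements of given digits in base `b` -/
  | rearranged (b : ℕ) (η : ℝ)
  /-- residues with small Fourier coefficients -/
  | residues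
  /-- integral parts of the values of a function of order `e` -/
  | rounded (e : ℝ) (f : ℝ → ℝ)

/-- The conditions on the fixed parameters: the base is at least two, `0 < η ≤ 1`, `L ≥ 1`; the automatic set is not thinner than
the powers of `log N`; the order `e > 0` is not an integer. -/
def Kind.Adm : Kind → Prop
  | .automatic b _ A => 2 ≤ b ∧ ∀ k : ℕ, ∃ᶠ N : ℕ in atTop, Real.log N ^ k < ((accepted b A N).card : ℝ)
  | .exchangeable b L η _ => 2 ≤ b ∧ 1 ≤ L ∧ 0 < η ∧ η ≤ 1
  | .mirror b η => 2 ≤ b ∧ 0 < η ∧ η ≤ 1
  | .rearranged b η => 2 ≤ b ∧ 0 < η ∧ η ≤ 1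
  | .residues => True
  | .rounded e f => 0 < e ∧ (∀ m : ℕ, e ≠ m) ∧ SmoothlyVarying e f

/-- `K.Has Z P`: `P` is a random integer of the kind `K`, of size `Z`.
* `automatic`: a random element of the set of the accepted integers below `N = Z`, all with the same probability;
* `exchangeable`: a random word of `k` digits (integer below `b ^ k = Z`) with a distribution `p` with `Exchangeable b L η T k p`;
* `mirror`: the random integer with `2 m + s` digits, `s ≤ 1`, whose pairs of digits at the places `i` and `2 m + s - 1 - i` are
  independent for the different `i < m` and have the distributions `w i`; `Z = b ^ (2 m + s)` (if `s = 1` then the middle digit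
  is `0`; it can be made arbitrary by a translation);
* `rearranged`: the integer with the digit `d (σ i)` at the place `i`, where `σ` is a random permutation of the `k` places, all
  with the same probability, and `d` are digits none of which is taken at more than `(1 - η) k` places; `Z = b ^ k`;
* `residues`: the least residue `0 ≤ v < q` of `y i`, where `i` is a random element of the finite set `u`, all with the same
  probability, and the Fourier coefficients are at most `1 / (Z (42 + 3 log q))`, `0 < Z ≤ q`;
* `rounded`: the integral part of `f n` for a random `n` between `1` and `M`, all with the same probability; `Z = f M`. -/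
def Kind.Has : Kind → ℝ → Law → Prop
  | .automatic b _ A, Z, P => ∃ N : ℕ, Z = N ∧
      P = ⟨ℕ, accepted b A N, fun _ => 1 / ((accepted b A N).card : ℝ), fun v => v⟩
  | .exchangeable b L η T, Z, P => ∃ (k : ℕ) (p : ℕ → ℝ), Exchangeable b L η T k p ∧ Z = (b : ℝ) ^ k ∧
      P = ⟨ℕ, range (b ^ k), p, fun v => v⟩
  | .mirror b η, Z, P => ∃ (m s : ℕ) (w : ℕ → ℕ × ℕ → ℝ), s ≤ 1 ∧ MirrorPairs b m η w ∧ Z = (b : ℝ) ^ (2 * m + s) ∧
      P = ⟨Fin m → ℕ × ℕ, Fintype.piFinset fun _ => range b ×ˢ range b, fun g => ∏ i : Fin m, w i (g i),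
        fun g => ∑ i : Fin m, ((g i).1 * b ^ (i : ℕ) + (g i).2 * b ^ (2 * m + s - 1 - (i : ℕ)))⟩
  | .rearranged b η, Z, P => ∃ (k : ℕ) (d : Fin k → ℕ), (∀ i, d i < b) ∧
      (∀ a, ((univ.filter fun i => d i = a).card : ℝ) ≤ (1 - η) * k) ∧ Z = (b : ℝ) ^ k ∧
      P = ⟨Equiv.Perm (Fin k), univ, fun _ => 1 / (k.factorial : ℝ), fun σ => ∑ i : Fin k, d (σ i) * b ^ (i : ℕ)⟩
  | .residues, Z, P => ∃ (ι : Type) (q : ℕ) (_ : NeZero q) (u : Finset ι) (y : ι → ZMod q), 0 < Z ∧ Z ≤ q ∧
      SmallFourier q (1 / (Z * (42 + 3 * Real.log q))) u y ∧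
      P = ⟨ι, u, fun _ => 1 / (u.card : ℝ), fun i => (y i).val⟩
  | .rounded _ f, Z, P => ∃ M : ℕ, Z = f M ∧ P = ⟨ℕ, Icc 1 M, fun _ => 1 / (M : ℝ), fun n => ⌊f n⌋₊⟩

end Pool.Agent.J4.H11.MT
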