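import Pool.Agent.N794.CG.Pairs

/-!
# Several parameters from independent families of different kinds: the fine error term

Counts of primes for functions of several residues with values in `[0, 1]`; the error is the square root of the mean,
up to a small power.
-/

set_option autoImplicit false

namespace Pool.Agent.J4.H11.MT

open Finset Filter
open Pool.Agent.R459.Eq (Sysb Few pri mem_pri mean Vs)
open Pool.Agent.N794.CG (FS QF FineAt Mostly meanD Avh)

/-- a system of functions of several residues with values in `[0, 1]` and sum at most one -/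
def Sys1 {D : ℕ} (h : ℕ → ℕ → (Fin D → ℤ) → ℝ) : Prop :=
  (∀ j p : ℕ, p.Prime → ∀ m m' : Fin D → ℤ, (∀ l, (p : ℤ) ∣ m l - m' l) → h j p m = h j p m') ∧
  (∀ j p : ℕ, p.Prime → ∀ m : Fin D → ℤ, 0 ≤ h j p m ∧ h j p m ≤ 1) ∧
  (∀ p : ℕ, p.Prime → ∀ (m : Fin D → ℤ) (K : ℕ), ∑ j ∈ range K, h j p m ≤ 1)

lemma mean_nonneg (p : ℕ) (f : ℤ → ℝ) (hf : ∀ n, 0 ≤ f n) : 0 ≤ mean p f := by
  unfold mean
  exact div_nonneg (sum_nonneg fun t _ => hf _) (Nat.cast_nonneg _)

lemma mean_le_one (p : ℕ) (hp : 1 ≤ p) (f : ℤ → ℝ) (hf : ∀ n, f n ≤ 1) : mean p f ≤ 1 := by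
  have hp0 : (0 : ℝ) < p := by exact_mod_cast hp
  unfold mean
  rw [div_le_iff₀ hp0]
  refine (sum_le_card_nsmul (range p) (fun t : ℕ => f (t : ℤ)) 1 fun t _ => hf _).trans ?_
  rw [card_range, nsmul_eq_mul, mul_comm]

lemma mean_sum (p : ℕ) (K : ℕ) (f : ℕ → ℤ → ℝ) : ∑ j ∈ range K, mean p (f j) = mean p (fun n => ∑ j ∈ range K, f j n) := by
  unfold mean
  rw [← sum_div, sum_comm]

lemma Avh_sys1 {D : ℕ} {h : ℕ → ℕ → (Fin (D + 1) → ℤ) → ℝ} (hh : Sys1 h) : Sys1 (Avh h) := by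
  refine ⟨?_, ?_, ?_⟩
  · intro j p hp m m' hm
    unfold Avh
    congr 1
    funext n
    apply hh.1 j p hp
    intro l
    refine Fin.cases ?_ (fun l => ?_) l
    · simp
    · simpa using hm l
  · intro j p hp m
    exact ⟨mean_nonneg p _ fun n => (hh.2.1 j p hp _).1, mean_le_one p hp.one_lt.le _ fun n => (hh.2.1 j p hp _).2⟩
  · intro p hp m K
    unfold Avh
    rw [mean_sum]
    exact mean_le_one p hp.one_lt.le _ fun n => hh.2.2 p hp _ K

lemma meanD_nonneg (p : ℕ) (hp : p.Prime) : ∀ (D : ℕ) (h : ℕ → ℕ → (Fin D → ℤ) → ℝ), Sys1 h → ∀ j, 0 ≤ meanD p D (h j p) := by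
  intro D
  induction D with
  | zero =>
    intro h hh j
    exact (hh.2.1 j p hp _).1
  | succ D ih =>
    intro h hh j
    have e1 : meanD p (D + 1) (h j p) = meanD p D (Avh h j p) := rfl
    rw [e1]
    exact ih (Avh h) (Avh_sys1 hh) j

/-- the system in the first variable -/
lemma fst_sys1 {D : ℕ} {h : ℕ → ℕ → (Fin (D + 1) → ℤ) → ℝ} (hh : Sys1 h) (m : Fin D → ℤ) :
    (∀ j, Sysb (fun p n => h j p (Fin.cons n m))) ∧ Few (fun j p n => h j p (Fin.cons n m)) := by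
  constructor
  · intro j
    constructor
    · intro p hp a b hab
      apply hh.1 j p hp
      intro l
      refine Fin.cases ?_ (fun l => ?_) l
      · simpa using hab
      · simp
    · intro p hp n
      have h1 := hh.2.1 j p hp (Fin.cons n m)
      exact abs_le.2 ⟨by linarith [h1.1], h1.2⟩
  · intro p hp n M
    have h1 : ∑ j ∈ range M, (h j p (Fin.cons n m)) ^ 2 ≤ ∑ j ∈ range M, h j p (Fin.cons n m) := by
      apply sum_le_sum
      intro j _
      have h2 := hh.2.1 j p hp (Fin.cons n m)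
      nlinarith [h2.1, h2.2]
    have h2 := hh.2.2 p hp (Fin.cons n m) M
    have h6 : (0 : ℝ) ≤ Nat.log 2 p := Nat.cast_nonneg _
    linarith

/-- the mean square is at most the mean -/
lemma Vs_avh {D : ℕ} {h : ℕ → ℕ → (Fin (D + 1) → ℤ) → ℝ} (hh : Sys1 h) (m : Fin D → ℤ) (j x : ℕ) :
    Vs (fun p n => h j p (Fin.cons n m)) x ≤ ∑ p ∈ pri x, Avh h j p m := by
  unfold Vs
  apply sum_le_sum
  intro p hp
  have hpp := (mem_pri.1 hp).2
  unfold Avh mean
  apply div_le_div_of_nonneg_right _ (Nat.cast_nonneg _)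
  apply sum_le_sum
  intro t _
  have h2 := hh.2.1 j p hpp (Fin.cons (t : ℤ) m)
  show (h j p (Fin.cons (t : ℤ) m)) ^ 2 ≤ h j p (Fin.cons (t : ℤ) m)
  nlinarith [h2.1, h2.2]

/-- the exceptional property in the first variable -/
def BadE (δ : ℝ) (X : ℕ) (R : ℕ → Prop) (a b : ℕ → ℕ → ℝ) : Prop :=
  ∃ x : ℕ, X ≤ x ∧ R x ∧ ∃ j : ℕ, (j : ℝ) ≤ (x : ℝ) ^ (δ / 2) ∧
    √(max 1 (∑ p ∈ pri (2 * x), b j p)) * (x : ℝ) ^ δ < |∑ p ∈ pri x, (a j p - b j p)|

/-- the exceptional property in `D` variables -/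
def BadF (δ : ℝ) (X : ℕ) (R : ℕ → Prop) (D : ℕ) (a b : ℕ → ℕ → ℝ) : Prop :=
  ∃ x : ℕ, X ≤ x ∧ (∀ e ≤ D, R (2 ^ e * x)) ∧ ∃ j : ℕ, (j : ℝ) ≤ (x : ℝ) ^ (δ / 2) ∧
    4 ^ D * (√(max 1 (∑ p ∈ pri (2 ^ D * x), b j p)) * ((x : ℝ) ^ δ) ^ D) < |∑ p ∈ pri x, (a j p - b j p)|

/-- the inequality of the induction -/
lemma chain_ineq (D : ℕ) (M1 M2 A2 e1 e2 e3 y y2 s sa : ℝ) (hy : 1 ≤ y) (hy2 : y2 ≤ 2 * y) (hy0 : 0 ≤ y2)
    (hs : 1 ≤ s) (hM : M2 ≤ s ^ 2) (hsa : sa = √(max 1 A2)) (hA2 : A2 ≤ M2 + 4 ^ D * (s * y2 ^ D))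
    (h1 : e1 ≤ sa * y) (h2 : e2 ≤ 4 ^ D * (M1 * y ^ D)) (hM1 : M1 ≤ s) (h3 : e3 ≤ e1 + e2) :
    e3 ≤ 4 ^ (D + 1) * (s * y ^ (D + 1)) := by
  have hyD : 1 ≤ y ^ D := one_le_pow₀ hy
  have h8 : (4 : ℝ) ^ D * 2 ^ D = 8 ^ D := by rw [← mul_pow]; norm_num
  have h16 : (8 : ℝ) ^ D ≤ 16 ^ D := pow_le_pow_left₀ (by norm_num) (by norm_num) D
  have h416 : ((4 : ℝ) ^ D) ^ 2 = 16 ^ D := by rw [← pow_mul, mul_comm, pow_mul]; norm_num
  have h1D : (1 : ℝ) ≤ 16 ^ D := one_le_pow₀ (by norm_num)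
  have h4D : (1 : ℝ) ≤ 4 ^ D := one_le_pow₀ (by norm_num)
  have hpow : y2 ^ D ≤ 2 ^ D * y ^ D := by
    rw [← mul_pow]
    exact pow_le_pow_left₀ hy0 hy2 D
  have hA : A2 ≤ 2 * 16 ^ D * (s ^ 2 * y ^ D) := by
    have k1 : (4 : ℝ) ^ D * (s * y2 ^ D) ≤ 8 ^ D * (s * y ^ D) := by
      calc (4 : ℝ) ^ D * (s * y2 ^ D) ≤ 4 ^ D * (s * (2 ^ D * y ^ D)) := by
            apply mul_le_mul_of_nonneg_left _ (by positivity)
            exact mul_le_mul_of_nonneg_left hpow (by linarith)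
        _ = (4 ^ D * 2 ^ D) * (s * y ^ D) := by ring
        _ = 8 ^ D * (s * y ^ D) := by rw [h8]
    have k2 : s * y ^ D ≤ s ^ 2 * y ^ D := by
      apply mul_le_mul_of_nonneg_right _ (by linarith)
      nlinarith
    have k3 : s ^ 2 ≤ s ^ 2 * y ^ D := le_mul_of_one_le_right (by positivity) hyD
    have k4 : 0 ≤ s ^ 2 * y ^ D := by positivity
    have k5 : (8 : ℝ) ^ D * (s * y ^ D) ≤ 16 ^ D * (s ^ 2 * y ^ D) :=
      mul_le_mul h16 k2 (by positivity) (by positivity)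
    nlinarith
  have hsa' : sa ≤ 2 * 4 ^ D * (s * y ^ D) := by
    rw [hsa, Real.sqrt_le_left (by positivity)]
    have e : (2 * 4 ^ D * (s * y ^ D)) ^ 2 = 4 * 16 ^ D * (s ^ 2 * (y ^ D) ^ 2) := by
      rw [← h416]
      ring
    rw [e]
    have k1 : y ^ D ≤ (y ^ D) ^ 2 := by nlinarith
    have k2 : s ^ 2 * y ^ D ≤ s ^ 2 * (y ^ D) ^ 2 := mul_le_mul_of_nonneg_left k1 (by positivity)
    have k3 : 1 ≤ s ^ 2 * (y ^ D) ^ 2 := by
      have : 1 ≤ s ^ 2 * y ^ D := one_le_mul_of_one_le_of_one_le (by nlinarith) hyD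
      linarith
    apply max_le
    · nlinarith
    · have k4 : 0 ≤ (16 : ℝ) ^ D := by positivity
      nlinarith [mul_le_mul_of_nonneg_left k2 k4, mul_nonneg k4 (by positivity : 0 ≤ s ^ 2 * (y ^ D) ^ 2)]
  have k1 : sa * y ≤ 2 * 4 ^ D * (s * y ^ (D + 1)) := by
    calc sa * y ≤ 2 * 4 ^ D * (s * y ^ D) * y := mul_le_mul_of_nonneg_right hsa' (by linarith)
      _ = 2 * 4 ^ D * (s * y ^ (D + 1)) := by ring
  have k2 : 4 ^ D * (M1 * y ^ D) ≤ 4 ^ D * (s * y ^ (D + 1)) := by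
    apply mul_le_mul_of_nonneg_left _ (by positivity)
    calc M1 * y ^ D ≤ s * y ^ D := mul_le_mul_of_nonneg_right hM1 (by positivity)
      _ ≤ s * y ^ (D + 1) := mul_le_mul_of_nonneg_left (pow_le_pow_right₀ hy (by omega)) (by linarith)
  have k3 : 0 ≤ 4 ^ D * (s * y ^ (D + 1)) := by positivity
  have k4 : (4 : ℝ) ^ (D + 1) * (s * y ^ (D + 1)) = 4 * (4 ^ D * (s * y ^ (D + 1))) := by ring
  rw [k4]
  linarith

/-- **several parameters**, fine error term -/
theorem fine_multi (δ : ℝ) (hδ : 0 < δ) (hδ1 : δ ≤ 1 / 2) (X : ℕ) (hX : 1 ≤ X) (R : ℕ → Prop) :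
    ∀ (D : ℕ) (ι : Fin D → Type) (Ω : ∀ l, Finset (ι l)) (w : ∀ l, ι l → ℝ) (v : ∀ l, ι l → ℤ) (τ : Fin D → ℝ),
    (∀ l, 0 ≤ τ l) → (∀ l, ∀ i ∈ Ω l, 0 ≤ w l i) → (∀ l, ∑ i ∈ Ω l, w l i ≤ 1) →
    (∀ l, FineAt δ X R (τ l) (Ω l) (w l) (v l)) →
    ∀ h : ℕ → ℕ → (Fin D → ℤ) → ℝ, Sys1 h → ∀ E : Finset (∀ l, ι l), E ⊆ Fintype.piFinset Ω →
    (∀ i ∈ E, BadF δ X R D (fun j p => h j p (fun l => v l (i l))) (fun j p => meanD p D (h j p))) →
    ∑ i ∈ E, ∏ l, w l (i l) ≤ ∑ l, τ l := by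
  classical
  intro D
  induction D with
  | zero =>
    intro ι Ω w v τ _ _ _ _ h _ E _ hbad
    have hE : E = ∅ := by
      rw [eq_empty_iff_forall_notMem]
      intro i hi
      obtain ⟨x, _, _, j, _, hlt⟩ := hbad i hi
      have h1 : ∀ p, h j p (fun l => v l (i l)) - meanD p 0 (h j p) = 0 := by
        intro p
        have e : (fun l => v l (i l)) = (fun i : Fin 0 => (i.elim0 : ℤ)) := funext fun l => l.elim0
        rw [e, meanD, sub_self]
      simp only [h1, sum_const_zero, abs_zero] at hlt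
      exact absurd hlt (not_lt.2 (by positivity))
    rw [hE, sum_empty]
    simp
  | succ D ih =>
    intro ι Ω w v τ hτ hw hw1 hfine h hh E hE hbad
    have hE' : ∀ i ∈ E, ∀ l, i l ∈ Ω l := fun i hi => Fintype.mem_piFinset.1 (hE hi)
    -- the tails
    obtain ⟨tl, htl⟩ : ∃ tl : (∀ l, ι l) → (∀ l : Fin D, ι l.succ), tl = fun i l => i l.succ := ⟨_, rfl⟩
    obtain ⟨Ω', hΩ'⟩ : ∃ Ω' : Finset (∀ l : Fin D, ι l.succ), Ω' = Fintype.piFinset (fun l : Fin D => Ω l.succ) := ⟨_, rfl⟩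
    obtain ⟨w', hw'⟩ : ∃ w' : (∀ l : Fin D, ι l.succ) → ℝ, w' = fun i => ∏ l, w l.succ (i l) := ⟨_, rfl⟩
    have htl' : ∀ i ∈ E, tl i ∈ Ω' := by
      intro i hi
      rw [hΩ', htl, Fintype.mem_piFinset]
      exact fun l => hE' i hi l.succ
    have hw'0 : ∀ i ∈ Ω', 0 ≤ w' i := by
      intro i hi
      rw [hΩ', Fintype.mem_piFinset] at hi
      rw [hw']
      exact prod_nonneg fun l _ => hw l.succ _ (hi l)
    have hw'1 : ∑ i ∈ Ω', w' i ≤ 1 := by
      rw [hΩ', hw', ← prod_univ_sum (fun l : Fin D => Ω l.succ) (fun l i => w l.succ i)]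
      exact prod_le_one (fun l _ => sum_nonneg fun i hi => hw l.succ i hi) fun l _ => hw1 l.succ
    have hprod : ∀ i : (∀ l, ι l), ∏ l, w l (i l) = w 0 (i 0) * w' (tl i) := by
      intro i
      rw [Fin.prod_univ_succ, hw', htl]
    have hvec : ∀ i : (∀ l, ι l), (fun l => v l (i l)) =
        Fin.cons (v 0 (i 0)) (fun l : Fin D => v l.succ (tl i l)) := by
      intro i
      funext l
      refine Fin.cases ?_ (fun l => ?_) l
      · simp
      · simp [htl]
    -- grouping by the tails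
    have hgroup : ∀ G : Finset (∀ l, ι l), G ⊆ E → ∀ c : ℝ,
        (∀ i' ∈ Ω', i' ∈ G.image tl → ∑ i ∈ G.filter (fun i => tl i = i'), w 0 (i 0) ≤ c) →
        ∑ i ∈ G, ∏ l, w l (i l) ≤ ∑ i' ∈ G.image tl, w' i' * c := by
      intro G hG c hc
      rw [← sum_fiberwise_of_maps_to (g := tl) (t := G.image tl) (fun i hi => mem_image_of_mem tl hi)]
      apply sum_le_sum
      intro i' hi'
      obtain ⟨i, hi, hii⟩ := mem_image.1 hi'
      have hi'Ω : i' ∈ Ω' := by
        rw [← hii]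
        exact htl' i (hG hi)
      calc ∑ i ∈ G.filter (fun i => tl i = i'), ∏ l, w l (i l) = ∑ i ∈ G.filter (fun i => tl i = i'), w' i' * w 0 (i 0) := by
            apply sum_congr rfl
            intro i hi
            rw [hprod i, (mem_filter.1 hi).2, mul_comm]
        _ = w' i' * ∑ i ∈ G.filter (fun i => tl i = i'), w 0 (i 0) := (mul_sum _ _ _).symm
        _ ≤ w' i' * c := mul_le_mul_of_nonneg_left (hc i' hi'Ω hi') (hw'0 i' hi'Ω)
    -- the fibres
    have hfib : ∀ (G : Finset (∀ l, ι l)), G ⊆ E → ∀ i' : (∀ l : Fin D, ι l.succ),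
        ∑ i ∈ G.filter (fun i => tl i = i'), w 0 (i 0) = ∑ z ∈ (G.filter (fun i => tl i = i')).image (fun i => i 0), w 0 z := by
      intro G hG i'
      rw [sum_image]
      intro i hi i₂ hi₂ h0
      rw [mem_coe, mem_filter] at hi hi₂
      funext l
      refine Fin.cases h0 (fun l => ?_) l
      have h1 := congrFun (hi.2.trans hi₂.2.symm) l
      rw [htl] at h1
      exact h1
    -- the two kinds of exceptions
    obtain ⟨E₁, hE₁⟩ : ∃ E₁, E₁ = E.filter (fun i => BadE δ X R (fun j p => h j p (fun l => v l (i l)))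
      (fun j p => Avh h j p (fun l : Fin D => v l.succ (tl i l)))) := ⟨_, rfl⟩
    obtain ⟨E₂, hE₂⟩ : ∃ E₂, E₂ = E.filter (fun i => BadF δ X R D (fun j p => Avh h j p (fun l : Fin D => v l.succ (tl i l)))
      (fun j p => meanD p D (Avh h j p))) := ⟨_, rfl⟩
    have hE₁E : E₁ ⊆ E := by rw [hE₁]; exact filter_subset _ _
    have hE₂E : E₂ ⊆ E := by rw [hE₂]; exact filter_subset _ _
    have hsplit : E ⊆ E₁ ∪ E₂ := by
      intro i hi
      rw [mem_union]
      by_contra hcon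
      push Not at hcon
      obtain ⟨c1, c2⟩ := hcon
      obtain ⟨x, hXx, hxR, j, hj, hlt⟩ := hbad i hi
      have hx1 : (1 : ℝ) ≤ x := by exact_mod_cast (hX.trans hXx)
      have hxp : (0 : ℝ) < x := by linarith
      obtain ⟨M, hM⟩ : ∃ M : ℕ → ℝ, M = fun z => ∑ p ∈ pri z, meanD p (D + 1) (h j p) := ⟨_, rfl⟩
      have hMmono : ∀ z z' : ℕ, z ≤ z' → M z ≤ M z' := by
        intro z z' hzz
        rw [hM]
        apply sum_le_sum_of_subset_of_nonneg
        · intro p hp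
          rw [mem_pri] at hp ⊢
          exact ⟨hp.1.trans hzz, hp.2⟩
        · intro p hp _
          exact meanD_nonneg p (mem_pri.1 hp).2 (D + 1) h hh j
      obtain ⟨s, hs⟩ : ∃ s : ℝ, s = √(max 1 (M (2 ^ (D + 1) * x))) := ⟨_, rfl⟩
      have hs1 : 1 ≤ s := by
        rw [hs, Real.one_le_sqrt]
        exact le_max_left _ _
      have hss : s ^ 2 = max 1 (M (2 ^ (D + 1) * x)) := by
        rw [hs]
        exact Real.sq_sqrt (le_trans zero_le_one (le_max_left _ _))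
      have b1 : |∑ p ∈ pri x, (h j p (fun l => v l (i l)) - Avh h j p (fun l : Fin D => v l.succ (tl i l)))| ≤
          √(max 1 (∑ p ∈ pri (2 * x), Avh h j p (fun l : Fin D => v l.succ (tl i l)))) * (x : ℝ) ^ δ := by
        by_contra h5
        push Not at h5
        have h6 : R x := by
          have := hxR 0 (by omega)
          simpa using this
        apply c1
        rw [hE₁, mem_filter]
        exact ⟨hi, x, hXx, h6, j, hj, h5⟩
      have b2 : ∀ z : ℕ, x ≤ z → (∀ e ≤ D, R (2 ^ e * z)) →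
          |∑ p ∈ pri z, (Avh h j p (fun l : Fin D => v l.succ (tl i l)) - meanD p D (Avh h j p))| ≤
          4 ^ D * (√(max 1 (M (2 ^ D * z))) * ((z : ℝ) ^ δ) ^ D) := by
        intro z hxz hzR
        by_contra h5
        push Not at h5
        have h6 : (x : ℝ) ^ (δ / 2) ≤ (z : ℝ) ^ (δ / 2) := by
          apply Real.rpow_le_rpow hxp.le _ (by linarith)
          exact_mod_cast hxz
        rw [hM] at h5
        apply c2
        rw [hE₂, mem_filter]
        exact ⟨hi, z, hXx.trans hxz, hzR, j, hj.trans h6, h5⟩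
      have b3 := b2 x le_rfl (fun e he => hxR e (by omega))
      have b4 := b2 (2 * x) (by omega) (fun e he => by
        have := hxR (e + 1) (by omega)
        rw [pow_succ, mul_assoc] at this
        exact this)
      have e5 : 2 ^ D * (2 * x) = 2 ^ (D + 1) * x := by rw [pow_succ]; ring
      rw [e5, ← hs] at b4
      have hA2 : ∑ p ∈ pri (2 * x), Avh h j p (fun l : Fin D => v l.succ (tl i l)) ≤
          M (2 * x) + 4 ^ D * (s * (((2 * x : ℕ) : ℝ) ^ δ) ^ D) := by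
        have e6 : ∑ p ∈ pri (2 * x), (Avh h j p (fun l : Fin D => v l.succ (tl i l)) - meanD p D (Avh h j p)) =
            ∑ p ∈ pri (2 * x), Avh h j p (fun l : Fin D => v l.succ (tl i l)) - M (2 * x) := by
          rw [sum_sub_distrib, hM]
          rfl
        rw [e6] at b4
        have := (abs_le.1 b4).2
        linarith
      have hy2 : ((2 * x : ℕ) : ℝ) ^ δ ≤ 2 * (x : ℝ) ^ δ := by
        push_cast
        rw [Real.mul_rpow (by norm_num) hxp.le]
        apply mul_le_mul_of_nonneg_right _ (by positivity)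
        calc (2 : ℝ) ^ δ ≤ 2 ^ (1 : ℝ) := Real.rpow_le_rpow_of_exponent_le (by norm_num) (by linarith)
          _ = 2 := Real.rpow_one 2
      have e : ∑ p ∈ pri x, (h j p (fun l => v l (i l)) - meanD p (D + 1) (h j p)) =
          ∑ p ∈ pri x, (h j p (fun l => v l (i l)) - Avh h j p (fun l : Fin D => v l.succ (tl i l))) +
          ∑ p ∈ pri x, (Avh h j p (fun l : Fin D => v l.succ (tl i l)) - meanD p D (Avh h j p)) := by
        rw [← sum_add_distrib]
        apply sum_congr rfl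
        intro p _
        have e1 : meanD p (D + 1) (h j p) = meanD p D (Avh h j p) := rfl
        rw [e1]
        ring
      have h1 := chain_ineq D (√(max 1 (M (2 ^ D * x)))) (M (2 * x)) _ _ _ _ ((x : ℝ) ^ δ) (((2 * x : ℕ) : ℝ) ^ δ) s _
        (Real.one_le_rpow hx1 hδ.le) hy2 (by positivity) hs1 (by
          rw [hss]
          exact (hMmono _ _ (by
            rw [pow_succ, mul_comm (2 ^ D) 2, mul_assoc]
            exact Nat.mul_le_mul_left 2 (Nat.le_mul_of_pos_left x (by positivity)))).trans (le_max_right _ _)) rfl hA2 b1 b3 (by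
          rw [hs]
          apply Real.sqrt_le_sqrt
          apply max_le_max le_rfl
          apply hMmono
          exact Nat.mul_le_mul_right x (Nat.pow_le_pow_right (by norm_num) (by omega))) (abs_add_le _ _)
      rw [← e] at h1
      rw [hs, hM] at h1
      exact absurd h1 (not_le.2 hlt)
    -- the sum over the first kind
    have k1 : ∑ i ∈ E₁, ∏ l, w l (i l) ≤ τ 0 := by
      refine (hgroup E₁ hE₁E (τ 0) fun i' hi' _ => ?_).trans ?_
      · rw [hfib E₁ hE₁E i']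
        obtain ⟨m, hm⟩ : ∃ m : Fin D → ℤ, m = fun l => v l.succ (i' l) := ⟨_, rfl⟩
        obtain ⟨s1, s2⟩ := fst_sys1 hh m
        refine hfine 0 ⟨fun j p n => h j p (Fin.cons n m), s1, s2⟩ _ ?_ ?_
        · intro z hz
          obtain ⟨i, hi, hiz⟩ := mem_image.1 hz
          rw [← hiz]
          exact hE' i (hE₁E (mem_filter.1 hi).1) 0
        · intro z hz hall
          obtain ⟨i, hi, hiz⟩ := mem_image.1 hz
          obtain ⟨hi1, hi2⟩ := mem_filter.1 hi
          rw [hE₁, mem_filter] at hi1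
          obtain ⟨_, x, hXx, hxW, j, hj, hlt⟩ := hi1
          have h6 := (hall x hXx hxW).2 j hj
          rw [hvec i] at hlt
          simp only [hi2, ← hm] at hlt
          rw [← hiz] at h6
          have h7 : √(max 1 (Vs ((⟨fun j p n => h j p (Fin.cons n m), s1, s2⟩ : FS).1 j) (2 * x))) * (x : ℝ) ^ δ ≤
              √(max 1 (∑ p ∈ pri (2 * x), Avh h j p m)) * (x : ℝ) ^ δ := by
            apply mul_le_mul_of_nonneg_right _ (by positivity)
            apply Real.sqrt_le_sqrt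
            apply max_le_max le_rfl
            exact Vs_avh hh m j _
          exact absurd (h6.trans h7) (not_le.2 hlt)
      · rw [← sum_mul]
        have h8 : ∑ i' ∈ E₁.image tl, w' i' ≤ 1 := by
          refine (sum_le_sum_of_subset_of_nonneg ?_ fun i hi _ => hw'0 i hi).trans hw'1
          intro i' hi'
          obtain ⟨i, hi, hii⟩ := mem_image.1 hi'
          rw [← hii]
          exact htl' i (hE₁E hi)
        calc _ ≤ 1 * τ 0 := mul_le_mul_of_nonneg_right h8 (hτ 0)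
          _ = τ 0 := one_mul _
    -- the sum over the second kind
    have k2 : ∑ i ∈ E₂, ∏ l, w l (i l) ≤ ∑ l : Fin D, τ l.succ := by
      refine (hgroup E₂ hE₂E 1 fun i' hi' _ => ?_).trans ?_
      · rw [hfib E₂ hE₂E i']
        refine (sum_le_sum_of_subset_of_nonneg ?_ fun i hi _ => hw 0 i hi).trans (hw1 0)
        intro z hz
        obtain ⟨i, hi, hiz⟩ := mem_image.1 hz
        rw [← hiz]
        exact hE' i (hE₂E (mem_filter.1 hi).1) 0
      · simp only [mul_one]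
        rw [hw']
        refine ih (fun l => ι l.succ) (fun l => Ω l.succ) (fun l => w l.succ) (fun l => v l.succ) (fun l => τ l.succ)
          (fun l => hτ l.succ) (fun l => hw l.succ) (fun l => hw1 l.succ) (fun l => hfine l.succ) (Avh h) (Avh_sys1 hh)
          (E₂.image tl) ?_ ?_
        · intro i' hi'
          obtain ⟨i, hi, hii⟩ := mem_image.1 hi'
          rw [← hii, ← hΩ']
          exact htl' i (hE₂E hi)
        · intro i' hi'
          obtain ⟨i, hi, hii⟩ := mem_image.1 hi'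
          rw [hE₂, mem_filter] at hi
          rw [← hii]
          exact hi.2
    have hnn : ∀ i ∈ E, 0 ≤ ∏ l, w l (i l) := fun i hi => prod_nonneg fun l _ => hw l _ (hE' i hi l)
    have hsum : ∑ i ∈ E, ∏ l, w l (i l) ≤ ∑ i ∈ E₁, ∏ l, w l (i l) + ∑ i ∈ E₂, ∏ l, w l (i l) := by
      calc ∑ i ∈ E, ∏ l, w l (i l) ≤ ∑ i ∈ E₁ ∪ E₂, ∏ l, w l (i l) :=
            sum_le_sum_of_subset_of_nonneg hsplit fun i hi _ => hnn i ((union_subset hE₁E hE₂E) hi)
        _ ≤ ∑ i ∈ E₁ ∪ E₂, ∏ l, w l (i l) + ∑ i ∈ E₁ ∩ E₂, ∏ l, w l (i l) := by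
            have : 0 ≤ ∑ i ∈ E₁ ∩ E₂, ∏ l, w l (i l) := sum_nonneg fun i hi => hnn i (hE₁E (mem_inter.1 hi).1)
            linarith
        _ = _ := sum_union_inter
    rw [Fin.sum_univ_succ]
    linarith

end Pool.Agent.J4.H11.MT
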