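import Pool.Agent.J4.H11.MT.Defs
import Pool.Agent.J4.H11.MT.Gen

/-!
# The one-dimensional statement for the six kinds of random integers
-/

set_option autoImplicit false

namespace Pool.Agent.J4.H11.MT

open Finset Filter
open Pool.Agent.N794.CG (FS QF FineAt Mostly Eng eng_fine eng_aut eng_flex eng_res eng_sv vac dom_of_decays)

lemma begins_sum (b k : ℕ) (μ : ℕ → ℝ) (i u : ℕ) (hi : i < k) :
    ∑ a ∈ range b, begins b k μ (i + 1) (b * u + a) = begins b k μ i u := by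
  unfold begins
  obtain ⟨n, hn⟩ : ∃ n, k - i = n + 1 := ⟨k - i - 1, by omega⟩
  have h1 : k - (i + 1) = n := by omega
  rw [h1, hn, pow_succ, mul_comm (b ^ n) b, Pool.Agent.N625.PT.sum_blocks b (b ^ n)]
  apply sum_congr rfl
  intro a _
  apply sum_congr rfl
  intro w _
  congr 1
  ring

lemma flex_of {b L T k : ℕ} {η : ℝ} {p : ℕ → ℝ} (hp : Exchangeable b L η T k p) : Pool.Agent.N625.PT.Flex b L η T k p := by
  obtain ⟨h0, h1, μ, m0, m1, m2, m3⟩ := hp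
  have hT : (0 : ℝ) ≤ (k : ℝ) ^ T := by positivity
  have hb0 : ∀ i u, 0 ≤ begins b k μ i u := fun i u => sum_nonneg fun w _ => m0 _
  refine ⟨h0, h1, fun i u => (k : ℝ) ^ T * begins b k μ i u, fun i u => mul_nonneg hT (hb0 i u), ?_, ?_, ?_, ?_⟩
  · intro v hv
    refine (m2 v hv).trans (le_of_eq ?_)
    unfold begins
    simp
  · intro i hi u _
    simp only
    rw [← mul_sum, begins_sum b k μ i u hi]
  · simp only
    have : begins b k μ 0 0 = 1 := by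
      unfold begins
      simpa using m1
    rw [this, mul_one]
  · intro i u hi hu
    obtain ⟨a, a', r, q1, q2, q3, q4, q5, q6, q7⟩ := m3 i u hi hu
    refine ⟨a, a', r, q1, q2, q3, q4, q5, ?_, ?_⟩
    · simp only
      calc η * ((k : ℝ) ^ T * begins b k μ i u) = (k : ℝ) ^ T * (η * begins b k μ i u) := by ring
        _ ≤ _ := mul_le_mul_of_nonneg_left q6 hT
    · simp only
      calc η * ((k : ℝ) ^ T * begins b k μ i u) = (k : ℝ) ^ T * (η * begins b k μ i u) := by ring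
        _ ≤ _ := mul_le_mul_of_nonneg_left q7 hT

lemma accepted_eq {σ : Type} (b : ℕ) (A : DFA ℕ σ) (N : ℕ) : accepted b A N = Pool.Agent.N794.CG.mem b A N := rfl

/-- the probabilities are nonnegative -/
lemma Kind.Has.nonneg {K : Kind} {Z : ℝ} {P : Law} (h : K.Has Z P) : ∀ i ∈ P.Ω, 0 ≤ P.w i := by
  cases K with
  | automatic b s A =>
    obtain ⟨N, _, rfl⟩ := h
    intro i _
    simp only
    positivity
  | exchangeable b L η T =>
    obtain ⟨k, p, hp, _, rfl⟩ := h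
    exact fun i _ => hp.nonneg i
  | mirror b η =>
    obtain ⟨m, s, w, _, hw, _, rfl⟩ := h
    intro g _
    show (0 : ℝ) ≤ ∏ i : Fin m, w i (g i)
    exact prod_nonneg fun (i : Fin m) _ => hw.nonneg i i.2 (g i)
  | rearranged b η =>
    obtain ⟨k, d, _, _, _, rfl⟩ := h
    intro i _
    simp only
    positivity
  | residues =>
    obtain ⟨ι, q, _, u, y, _, _, _, rfl⟩ := h
    intro i _
    simp only
    positivity
  | rounded e f =>
    obtain ⟨M, _, rfl⟩ := h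
    intro i _
    simp only
    positivity

/-- the sum of the probabilities is at most one -/
lemma Kind.Has.sum_le {K : Kind} {Z : ℝ} {P : Law} (h : K.Has Z P) : ∑ i ∈ P.Ω, P.w i ≤ 1 := by
  cases K with
  | automatic b s A =>
    obtain ⟨N, _, rfl⟩ := h
    simp only [sum_const, nsmul_eq_mul, mul_one_div]
    exact div_self_le_one _
  | exchangeable b L η T =>
    obtain ⟨k, p, hp, _, rfl⟩ := h
    exact hp.sum.le
  | mirror b η =>
    obtain ⟨m, s, w, _, hw, _, rfl⟩ := h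
    simp only
    rw [← prod_univ_sum (fun _ : Fin m => range b ×ˢ range b) (fun i a => w i a)]
    exact (prod_congr rfl fun (i : Fin m) _ => hw.sum i i.2).le.trans (by simp)
  | rearranged b η =>
    obtain ⟨k, d, _, _, _, rfl⟩ := h
    simp only [sum_const, nsmul_eq_mul, mul_one_div, card_univ, Fintype.card_perm, Fintype.card_fin]
    exact div_self_le_one _
  | residues =>
    obtain ⟨ι, q, _, u, y, _, _, _, rfl⟩ := h
    simp only [sum_const, nsmul_eq_mul, mul_one_div]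
    exact div_self_le_one _
  | rounded e f =>
    obtain ⟨M, _, rfl⟩ := h
    simp only [sum_const, nsmul_eq_mul, mul_one_div, Nat.card_Icc, Nat.add_sub_cancel]
    exact div_self_le_one _

lemma le_log_sq (b k : ℕ) (hb : 2 ≤ b) : (k : ℝ) ≤ (1 + |Real.log ((b : ℝ) ^ k)|) ^ 2 := by
  have h2 : (0.69 : ℝ) < Real.log 2 := by linarith [Real.log_two_gt_d9]
  have hb2 : Real.log 2 ≤ Real.log b := Real.log_le_log (by norm_num) (by exact_mod_cast hb)
  have hk : (0 : ℝ) ≤ k := Nat.cast_nonneg k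
  rw [Real.log_pow]
  have h3 : 0.69 * (k : ℝ) ≤ k * Real.log b := by nlinarith
  have h4 : k * Real.log b ≤ |(k : ℝ) * Real.log b| := le_abs_self _
  have h5 : 0 ≤ |(k : ℝ) * Real.log b| := abs_nonneg _
  nlinarith

/-- the base is at least one -/
lemma one_le_base (Z : ℝ) : 1 ≤ 1 + |Real.log Z| := by linarith [abs_nonneg (Real.log Z)]

lemma fine_of (δ : ℝ) {X : ℕ} {R : ℕ → Prop} {τ τ' : ℝ} {ι : Type} {Ω : Finset ι} {w : ι → ℝ} {v : ι → ℤ}
    (h : FineAt δ X R τ Ω w v) (hτ : τ ≤ τ') : FineAt δ X R τ' Ω w v := fun s => (h s).le hτ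

/-- the one-dimensional statement -/
theorem fine_kind (δ : ℝ) (hδ : 0 < δ) (hδ1 : δ ≤ 1 / 2) (K : Kind) (hK : K.Adm) : ∃ W A : ℕ, 1 ≤ W ∧
    ∀ κ : ℤ, κ ≠ 0 → ∃ X₀ : ℕ, ∀ X : ℕ, X₀ ≤ X → ∀ (Z : ℝ) (P : Law), K.Has Z P → ∀ c : ℤ,
      FineAt δ X (fun x => (x : ℝ) ^ W ≤ Z) ((1 + |Real.log Z|) ^ A * (2 * (X : ℝ) ^ (-(δ / 2)))) P.Ω P.w
        (fun i => c + κ * (P.v i : ℕ)) := by
  have heng := eng_fine δ hδ hδ1
  have hτ : ∀ X : ℕ, (0 : ℝ) ≤ 2 * (X : ℝ) ^ (-(δ / 2)) := fun X => by positivity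
  cases K with
  | automatic b s A =>
    obtain ⟨hb, hS⟩ := hK
    obtain ⟨W, e, hW, H⟩ := eng_aut hτ heng b hb A hS
    refine ⟨W, e, hW, fun κ hκ => ?_⟩
    obtain ⟨X₀, J⟩ := H κ hκ
    refine ⟨X₀, fun X hX Z P hP c s => ?_⟩
    obtain ⟨N, rfl, rfl⟩ := hP
    refine ((J X hX N c s).mono fun n hn x hXx hx => hn x hXx (by exact_mod_cast hx)).le ?_
    apply mul_le_mul_of_nonneg_right _ (hτ X)
    apply pow_le_pow_left₀ (Real.log_natCast_nonneg N)
    linarith [le_abs_self (Real.log N)]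
  | exchangeable b L η T =>
    obtain ⟨hb, hL, hη0, hη1⟩ := hK
    obtain ⟨W, hW, H⟩ := eng_flex hτ heng b L hb hL η hη0 hη1 T
    refine ⟨W, 2 * T, hW, fun κ hκ => ?_⟩
    obtain ⟨X₀, J⟩ := H κ hκ
    refine ⟨X₀, fun X hX Z P hP c s => ?_⟩
    obtain ⟨k, p, hp, rfl, rfl⟩ := hP
    refine ((J X hX k p (flex_of hp) c s).mono fun n hn x hXx hx => hn x hXx (by exact_mod_cast hx)).le ?_
    apply mul_le_mul_of_nonneg_right _ (hτ X)
    rw [pow_mul]
    exact pow_le_pow_left₀ (Nat.cast_nonneg k) (le_log_sq b k hb) T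
  | mirror b η =>
    obtain ⟨hb, hη0, hη1⟩ := hK
    obtain ⟨γ, hγ0, hγ1, hdec⟩ := Pool.Agent.R459.Eq.mir_decays b hb η hη0 hη1
    obtain ⟨W, hW, H⟩ := heng b hb 5 γ hγ0 hγ1
    refine ⟨W, 0, hW, fun κ hκ => ?_⟩
    obtain ⟨X₀, J⟩ := H (b ^ 4).factorial κ (Nat.factorial_pos _) hκ
    refine ⟨X₀, fun X hX Z P hP c s' => ?_⟩
    obtain ⟨m, s, w, hs, hw, rfl, rfl⟩ := hP
    have h1 := J X hX (2 * m + s) 1 _ _ _ _
      (dom_of_decays (hdec m s hs w ⟨hw.nonneg, hw.sum, hw.differ⟩ c κ)) s'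
    rw [pow_zero]
    exact h1.mono fun n hn x hXx hx => hn x hXx (by exact_mod_cast hx)
  | rearranged b η =>
    obtain ⟨hb, hη0, hη1⟩ := hK
    obtain ⟨A, γ, hγ0, hγ1, hdec⟩ := Pool.Agent.R459.Eq.perm_decays b hb η hη0 hη1
    obtain ⟨W, hW, H⟩ := heng b hb A γ hγ0 hγ1
    refine ⟨W, 0, hW, fun κ hκ => ?_⟩
    obtain ⟨X₀, J⟩ := H (Pool.Agent.TH872.An.GG b) κ (Pool.Agent.TH872.An.GG_pos b hb) hκ
    refine ⟨X₀, fun X hX Z P hP c s' => ?_⟩
    obtain ⟨k, d, hd, hd', rfl, rfl⟩ := hP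
    have h1 := J X hX k 1 _ _ _ _ (dom_of_decays (hdec k d ⟨hd, hd'⟩ c κ)) s'
    rw [pow_zero]
    exact h1.mono fun n hn x hXx hx => hn x hXx (by exact_mod_cast hx)
  | residues =>
    obtain ⟨W, hW, H⟩ := eng_res hτ heng
    refine ⟨W, 0, hW, fun κ hκ => ?_⟩
    obtain ⟨X₀, J⟩ := H κ hκ
    refine ⟨X₀, fun X hX Z P hP c s => ?_⟩
    obtain ⟨ι, q, _, u, y, hZ, hZq, hfl, rfl⟩ := hP
    rw [pow_zero, one_mul]
    exact J X hX ι q u y Z hZ hZq hfl c s
  | rounded e f =>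
    obtain ⟨he, hn, hf⟩ := hK
    obtain ⟨W, hW, H⟩ := eng_sv hτ heng e f he hn hf
    refine ⟨W, 0, hW, fun κ hκ => ?_⟩
    obtain ⟨X₀, J⟩ := H κ hκ
    refine ⟨X₀, fun X hX Z P hP c s => ?_⟩
    obtain ⟨M, rfl, rfl⟩ := hP
    rw [pow_zero, one_mul]
    exact J X hX M c s

end Pool.Agent.J4.H11.MT
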